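import Pool.Agent.helper80.EN.Spec

/-!
Row SNB of the specification EN (MP_43ab4e_al): subnormal locally nilpotent subgroups lie in the
Hirsch-Plotkin radical.
-/

set_option autoImplicit false

universe u

namespace Pool.Agent.helper80.EN

open Subgroup

/-- The induction: if `K` is subnormal then every locally nilpotent normal subgroup of `K` is in
`HP G`. -/
theorem SNB_aux (h1 : HPR_stmt.{u}) (h2 : TRF_stmt.{u}) {G : Type u} [Group G] (K : Subgroup G)
    (hK : K.IsSubnormal) : ∀ L : Subgroup G, L ≤ K → (∀ k ∈ K, ∀ l ∈ L, k * l * k⁻¹ ∈ L) →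
      LocNilp L → L ≤ HP G := by
  induction hK with
  | top =>
    intro L _ hn hl
    refine (h1 G).2.2.1 L ⟨fun l hl g => hn g (mem_top g) l hl⟩ hl
  | step K K' hle hS hN ih =>
    intro L hLK hn hl
    -- `K₁` is `K` as a subgroup of `K'`
    obtain ⟨K₁, hK₁⟩ : ∃ K₁ : Subgroup K', K₁ = K.subgroupOf K' := ⟨_, rfl⟩
    have hmem : ∀ x : K', x ∈ K₁ ↔ (x : G) ∈ K := by
      intro x
      rw [hK₁]
      exact Iff.rfl
    have hN' : K₁.Normal := by rw [hK₁]; exact hN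
    have hchar : (HP K₁).Characteristic := (h1 K₁).2.2.2
    have hM₁ : ((HP K₁).map K₁.subtype).Normal :=
      ConjAct.normal_of_characteristic_of_normal
    have hM : LocNilp (((HP K₁).map K₁.subtype).map K'.subtype) :=
      (h2 K').2.1 G K'.subtype _ ((h2 K₁).2.1 K' K₁.subtype _ (h1 K₁).2.1)
    have hMle : ((HP K₁).map K₁.subtype).map K'.subtype ≤ HP G := by
      refine ih _ ?_ ?_ hM
      · rintro x ⟨y, _, rfl⟩
        exact y.2
      · rintro k hk x ⟨y, hy, rfl⟩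
        exact ⟨(⟨k, hk⟩ : K') * y * (⟨k, hk⟩ : K')⁻¹, hM₁.conj_mem y hy _, rfl⟩
    -- `L` inside `K₁`
    have hL₁ : L.comap (K'.subtype.comp K₁.subtype) ≤ HP K₁ := by
      refine (h1 K₁).2.2.1 _ ⟨?_⟩ ?_
      · intro l hl' g
        have hg : (((g : K₁) : K') : G) ∈ K := (hmem _).1 g.2
        exact hn _ hg _ hl'
      · refine (h2 K₁).2.2.1 G (K'.subtype.comp K₁.subtype) _ ?_ ?_
        · exact (Subtype.val_injective).comp (Subtype.val_injective)
        · refine (h2 G).1 _ L ?_ hl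
          exact map_comap_le _ _
    intro l hlL
    apply hMle
    have hlK : l ∈ K := hLK hlL
    have hlK' : l ∈ K' := hle hlK
    have hlK₁ : (⟨l, hlK'⟩ : K') ∈ K₁ := (hmem _).2 hlK
    exact ⟨⟨l, hlK'⟩, ⟨⟨⟨l, hlK'⟩, hlK₁⟩, hL₁ hlL, rfl⟩, rfl⟩

/-- Row SNB. -/
theorem SNB (h1 : HPR_stmt.{u}) (h2 : TRF_stmt.{u}) : SNB_stmt.{u} := by
  intro G _ H hH hl
  cases hH with
  | top => exact (h1 G).2.2.1 ⊤ inferInstance hl
  | step H K hle hS hN =>
    refine SNB_aux h1 h2 K hS H hle ?_ hl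
    intro k hk l hl
    exact hN.conj_mem ⟨l, hle hl⟩ hl ⟨k, hk⟩

end Pool.Agent.helper80.EN
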