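import Pool.Agent.helper80.EN.Spec3

/-! Row eb:SBE: elements that generate a subnormal subgroup are bounded left Engel. -/

set_option autoImplicit false

namespace Pool.Agent.helper80.EN

open Subgroup

universe u

theorem SBE_icom {G : Type u} [Group G] {H : Subgroup G} (hH : H.IsSubnormal) :
    ∃ n : ℕ, ∀ a ∈ H, ∀ x : G, icom x a n ∈ H := by
  induction hH with
  | top => exact ⟨0, fun a _ x => mem_top _⟩
  | step H K hle _ hN ih =>
    obtain ⟨n, hn⟩ := ih
    refine ⟨n + 1, fun a ha x => ?_⟩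
    have hk : icom x a n ∈ K := hn a (hle ha) x
    have h1 := hN.conj_mem ⟨a⁻¹, K.inv_mem (hle ha)⟩ (mem_subgroupOf.2 (H.inv_mem ha))
      ⟨(icom x a n)⁻¹, K.inv_mem hk⟩
    rw [mem_subgroupOf] at h1
    have h2 : (icom x a n)⁻¹ * a⁻¹ * icom x a n ∈ H := by simpa using h1
    change com (icom x a n) a ∈ H
    unfold com
    exact H.mul_mem h2 ha

theorem SBE : SBE_stmt.{u} := by
  intro G _ a ha
  obtain ⟨n, hn⟩ := SBE_icom ha
  refine ⟨n + 1, fun x => ?_⟩
  obtain ⟨k, hk⟩ := mem_zpowers_iff.1 (hn a (mem_zpowers a) x)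
  change com (icom x a n) a = 1
  unfold com
  rw [← hk]
  group

end Pool.Agent.helper80.EN
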